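import Mathlib
import Pool.Agent.Lib.helper4.MProd

set_option autoImplicit false

open Cardinal Set Pool.Agent.Lib.helper4.MProd

namespace Pool.Agent.Results.MP_69a01b_lc.NotSmallest

/-- `G` generates `B` as a Boolean `m`-algebra: the only subset containing `G` and closed under
complements and under joins of at most `m` elements is `B`. -/
def Gen (m : Cardinal.{0}) {B : Type} [BooleanAlgebra B] (G : Set B) : Prop :=
  ∀ C : Set B, G ⊆ C → (∀ b ∈ C, bᶜ ∈ C) → (∀ S ⊆ C, #S ≤ m → ∀ b, IsLUB S b → b ∈ C) → C = Set.univ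

/-- `{i, B}` is a `(J,M,m)`-extension of `A`. -/
def IsExt (m : Cardinal.{0}) {A : Type} [BooleanAlgebra A] (J M : Set (Set A)) {B : Type}
    [BooleanAlgebra B] (i : BoundedLatticeHom A B) : Prop :=
  IsMAlg m B ∧ Function.Injective i ∧ (∀ S ∈ J, ∀ a, IsLUB S a → IsLUB (i '' S) (i a)) ∧
    (∀ S ∈ M, ∀ a, IsGLB S a → IsGLB (i '' S) (i a)) ∧ Gen m (range i)

/-- `{i, B}` is an `m`-completion of `A`. -/
def IsCompletion (m : Cardinal.{0}) {A : Type} [BooleanAlgebra A] {B : Type}
    [BooleanAlgebra B] (i : BoundedLatticeHom A B) : Prop :=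
  IsMAlg m B ∧ Function.Injective i ∧ (∀ b : B, b ≠ ⊥ → ∃ a, i a ≠ ⊥ ∧ i a ≤ b) ∧ Gen m (range i)

/-- With `J = M = ∅`: some `m`-completion is not a smallest `(J,M,m)`-extension. -/
theorem result : ∃ (m : Cardinal.{0}) (A : Type) (_ : BooleanAlgebra A), ℵ₀ ≤ m ∧
    ∃ (B : Type) (_ : BooleanAlgebra B) (i : BoundedLatticeHom A B), IsCompletion m i ∧
    ∃ (B' : Type) (_ : BooleanAlgebra B') (i' : BoundedLatticeHom A B'), IsExt m ∅ ∅ i' ∧
      ¬ ∃ h : BoundedLatticeHom B' B, IsMHom m h ∧ ∀ a, i a = h (i' a) := by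
  let A := RO (P := (Set.Finite : Set ℕ → Prop)) finite_empty fun _ _ => Finite.union
  have hD : #{x : Set ℕ // x.Finite} ≤ ℵ₀ :=
    Cardinal.mk_le_aleph0_iff.mpr (Set.Countable.ofPred_finite (α := ℕ)).to_subtype
  obtain ⟨hp, hd⟩ := ro_min (P := (Set.Finite : Set ℕ → Prop)) finite_empty (fun _ _ => Finite.union)
    _ le_rfl (by simp) hD (fun _ _ h h' => h.subset h') finite_singleton
  let D := {I : Order.Ideal A // I.IsMaximal}
  let i' : BoundedLatticeHom A (Set D) :=
    { toFun := fun a => {I | a ∉ I.1}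
      map_sup' := fun a b => by
        ext I; simp only [mem_ofPred_eq, Order.Ideal.sup_mem_iff, sup_eq_union, mem_union]; tauto
      map_inf' := fun a b => by
        ext I
        have := I.2
        simp only [mem_ofPred_eq, inf_eq_inter, mem_inter_iff]
        exact ⟨fun h => ⟨fun h' => h (I.1.lower inf_le_left h'), fun h' => h (I.1.lower inf_le_right h')⟩,
          fun h h' => ((inferInstance : I.1.IsPrime).mem_or_mem h').elim h.1 h.2⟩
      map_top' := eq_univ_of_forall fun I => I.2.toIsProper.top_notMem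
      map_bot' := eq_empty_of_forall_notMem fun I h => h I.1.bot_mem }
  have hi : ∀ c : A, i' c = ⊥ → c = ⊥ := by
    intro c hc
    by_contra h
    have hpr : (Order.Ideal.principal cᶜ).IsProper := by
      rw [Order.Ideal.isProper_iff_top_notMem, Order.Ideal.mem_principal, top_le_iff, compl_eq_top]
      exact h
    obtain ⟨I, h1, h2⟩ := hpr.exists_le_maximal
    have h3 : c ∈ I := by
      by_contra h3
      exact (hc ▸ h3 : (⟨I, h2⟩ : D) ∈ (⊥ : Set D))
    have h4 := I.sup_mem h3 (h1 Order.Ideal.mem_principal_self)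
    rw [sup_compl_eq_top] at h4
    exact h2.toIsProper.top_notMem h4
  refine ⟨max ℵ₀ (max #A #D), A, inferInstance, le_max_left _ _, A, inferInstance,
    BoundedLatticeHom.id A, ⟨fun S _ => ro_alg _ _ S, Function.injective_id, fun b hb => ⟨b, hb, le_rfl⟩,
      fun C hC _ _ => eq_univ_of_forall fun a => hC ⟨a, rfl⟩⟩, Set D, inferInstance, i',
    ⟨fun S _ => ⟨⟨_, isLUB_sSup S⟩, _, isGLB_sInf S⟩, fun a b h => ?_, fun _ h => h.elim,
      fun _ h => h.elim, fun C c1 c2 c3 => eq_univ_of_forall fun s => ?_⟩, ?_⟩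
  · refine le_antisymm (sdiff_eq_bot_iff.mp (hi _ ?_)) (sdiff_eq_bot_iff.mp (hi _ ?_)) <;>
      rw [map_sdiff', h] <;> exact _root_.sdiff_self
  · have hs : ∀ I : D, {I} ∈ C := by
      intro I
      have h4 := c2 _ (c3 (i' '' I.1) ((image_subset_range _ _).trans c1)
        (mk_image_le.trans ((mk_set_le _).trans (le_max_of_le_right (le_max_left _ _)))) _ (isLUB_sSup _))
      convert h4 using 1
      ext J
      simp only [mem_singleton_iff, sSup_eq_sUnion, sUnion_image, mem_compl_iff, mem_iUnion, not_exists]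
      constructor
      · rintro rfl a ha h; exact h ha
      · intro h
        have hle : I.1 ≤ J.1 := fun a ha => not_not.mp (h a ha)
        refine Subtype.ext (hle.eq_or_lt.resolve_right fun hlt => ?_).symm
        exact J.2.toIsProper.ne_univ (I.2.maximal_proper hlt)
    exact c3 (singleton '' s) (by rintro _ ⟨x, -, rfl⟩; exact hs x)
      (mk_image_le.trans ((mk_set_le s).trans (le_max_of_le_right (le_max_right _ _)))) s
      ⟨by rintro _ ⟨x, hx, rfl⟩; exact singleton_subset_iff.mpr hx, fun u hu x hx => hu ⟨x, hx, rfl⟩ rfl⟩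
  · rintro ⟨h, hh, he⟩
    have hs : ∀ I : D, h {I} = ⊥ := fun I => small _ (fun _ t h => h.insert t) infinite_univ _
      hp.2.2.1 hd _ (fun t => jj _ _ finite_singleton t {True} ∉ I.1) fun t => by
        refine le_of_le_of_eq (OrderHomClass.mono h (singleton_subset_iff.mpr ?_)) (he _).symm
        show jj finite_empty (fun _ _ => Finite.union) finite_singleton t
          {jj finite_empty (fun _ _ => Finite.union) finite_singleton t {True} ∉ I.1} ∉ I.1
        by_cases h1 : jj finite_empty (fun _ _ => Finite.union) finite_singleton t {True} ∈ I.1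
        · have e2 : ({False} : Set Prop) = {True}ᶜ := by ext p; simp
          rw [eq_false (not_not.mpr h1), e2, map_compl']
          intro h2
          have h4 := I.1.sup_mem h1 h2
          rw [sup_compl_eq_top] at h4
          exact I.2.toIsProper.top_notMem h4
        · rw [eq_true h1]; exact h1
    have hl : IsLUB (range singleton) (⊤ : Set D) :=
      ⟨fun _ _ => le_top, fun u hu x _ => hu ⟨x, rfl⟩ rfl⟩
    have h2 := (hh _ (mk_range_le.trans (le_max_of_le_right (le_max_right _ _))) _).1 hl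
    have h3 : h ⊤ ≤ ⊥ := h2.2 (by rintro _ ⟨_, ⟨x, rfl⟩, rfl⟩; exact (hs x).le)
    obtain ⟨b, -, hb0⟩ := hp.2.2.1 ∅ finite_empty (fun _ => ⊤) (fun _ h => h.elim)
    rw [map_top] at h3
    exact hb0 (le_bot_iff.mp (le_top.trans h3))

end Pool.Agent.Results.MP_69a01b_lc.NotSmallest
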